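import Pool.Agent.J4.H57.QP.St
import Pool.Agent.J4.H38.SR.Kuhn4

/-!
# Almost all patterns of quadruplets `p, p + d_1, p + d_2, p + d_3` between consecutive fifth powers, with
# `p` prime and the other numbers with at most three prime factors

There is an absolute constant `δ > 0` such that for every `ε > 0`: if `N` is large and
`Λ log N ≤ H ≤ N ^ 3`, where `Λ` is large in terms of `ε`, then all but at most `ε H ^ 3` of the
three-element sets `D ⊆ [1, H]` such that `{0} ∪ D` misses a class modulo every prime have the following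
property.  For at least `δ N` of the `n ≤ N` there are at least `δ 𝔖({0} ∪ D) n ^ 4 / (log n) ^ 4`
primes `p` such that all the numbers `p, p + d`, `d ∈ D`, are strictly between `n ^ 5` and `(n + 1) ^ 5`
and each `p + d` has at most three prime factors, all of them `≥ N ^ (5 / 8)`.

Golubew asks this for all `n`, for `D = {2, 6, 8}` and with primes `p + d`.  Here the diameters of the
patterns may be as small as a constant times the mean distance of the primes, and almost every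
pattern is good.

Proof.  A lower bound for almost all `D` for the number of such `p` up to `N ^ 5` (Kuhn's weighted sieve
and a large sieve for the shifts, `Pool.Agent.J4.H38.SR.almostN` of helper38, used for
`MP_485179_nt.ThreePrimeFactors`) is combined with an upper bound sieve in the intervals between
consecutive fifth powers, uniform in `D` and correct up to a constant (`Pool.Agent.J4.H57.QP`).
-/

set_option autoImplicit false

open Finset Filter

namespace Pool.Agent.Results.MP_c03ca8_nt.AlmostAllPatterns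

/-- the number of residue classes modulo `p` occupied by `T` -/
def nu (T : Finset ℕ) (p : ℕ) : ℕ := (T.image (· % p)).card

/-- the factor at `p` of the singular series -/
noncomputable def loc (T : Finset ℕ) (p : ℕ) : ℝ :=
  (1 - (nu T p : ℝ) / p) / (1 - 1 / (p : ℝ)) ^ T.card

/-- the singular series of `T` -/
noncomputable def 𝔖 (T : Finset ℕ) : ℝ := ∏' p : Nat.Primes, loc T p

/-- the number of the primes `p` such that all the numbers `p`, `p + d`, `d ∈ D`, are between `n ^ 5`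
and `(n + 1) ^ 5` and each `p + d` has at most three prime factors (counted with multiplicity), all of
them at least `N ^ (5 / 8)` -/
noncomputable def almost (N : ℕ) (D : Finset ℕ) (n : ℕ) : ℕ :=
  {p : ℕ | p.Prime ∧ n ^ 5 < p ∧ p < (n + 1) ^ 5 ∧ ∀ d ∈ D, p + d < (n + 1) ^ 5 ∧
    (p + d).primeFactorsList.length ≤ 3 ∧
    ∀ q ∈ (p + d).primeFactors, (N : ℝ) ^ (5 / 8 : ℝ) ≤ q}.ncard

open Classical in
/-- for at least `δ N` of the `n ≤ N` there are at least `δ 𝔖({0} ∪ D) n ^ 4 / (log n) ^ 4` such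
primes -/
def Often (δ : ℝ) (N : ℕ) (D : Finset ℕ) : Prop :=
  δ * N ≤ (((Icc 1 N).filter (fun n : ℕ =>
    δ * 𝔖 (insert 0 D) * ((n : ℝ) ^ 4 / Real.log n ^ 4) ≤ (almost N D n : ℝ))).card : ℝ)

open Classical in
/-- the exceptional sets -/
noncomputable def bad (δ : ℝ) (N H : ℕ) : Finset (Finset ℕ) :=
  ((Icc 1 H).powersetCard 3).filter (fun D => 𝔖 (insert 0 D) ≠ 0 ∧ ¬ Often δ N D)

open Pool.Agent.H387R2.Uni Pool.Agent.J4.H57.QP Pool.Agent.J4.H38.SR

theorem CT_eq (T : Finset ℕ) : CT T = 𝔖 T := rfl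

theorem S_pos {T : Finset ℕ} (hT : ∀ p : ℕ, p.Prime → nu T p < p) : 0 < 𝔖 T := by
  rw [← CT_eq, ← CT_en]
  apply Pool.Agent.H386R2.HL.singularSeries_pos (en_inj T)
  intro p hp
  rw [nu_en]
  exact hT p hp

open Classical in
/-- The products `𝔖 T` converge and are positive for admissible `T`.  There is a constant `δ > 0` such
that for all `ε > 0` there are `Λ` and `N₀` with the following property: for all integers `N ≥ N₀` and
`H` with `Λ log N ≤ H ≤ N ^ 3`, for all but at most `ε H ^ 3` of the three-element sets `D ⊆ [1, H]` with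
`𝔖({0} ∪ D) ≠ 0`, for at least `δ N` of the `n ≤ N` there are at least
`δ 𝔖({0} ∪ D) n ^ 4 / (log n) ^ 4` primes `p` such that `p` and the `p + d`, `d ∈ D`, are strictly
between `n ^ 5` and `(n + 1) ^ 5` and each `p + d` has at most three prime factors, all of them at
least `N ^ (5 / 8)`. -/
theorem result :
    (∀ T : Finset ℕ, HasProd (fun p : Nat.Primes => loc T p) (𝔖 T) ∧
      ((∀ p : ℕ, p.Prime → nu T p < p) → 0 < 𝔖 T)) ∧
    ∃ δ : ℝ, 0 < δ ∧ ∀ ε : ℝ, 0 < ε → ∃ (Λ : ℝ) (N₀ : ℕ), ∀ N : ℕ, N₀ ≤ N →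
      ∀ H : ℕ, Λ * Real.log N ≤ H → H ≤ N ^ 3 → ((bad δ N H).card : ℝ) ≤ ε * (H : ℝ) ^ 3 := by
  have tN : Tendsto (fun N : ℕ => (N : ℝ)) atTop atTop := tendsto_natCast_atTop_atTop
  refine ⟨fun T => ⟨CT_hasProd T, fun hT => S_pos hT⟩, ?_⟩
  obtain ⟨c, hc, hmain⟩ := almostN
  obtain ⟨δ, hδ, N₂, hN₂⟩ := Pool.Agent.J4.H57.QP.step (κ := c ^ 3) (by positivity)
  refine ⟨δ, hδ, fun ε hε => ?_⟩
  obtain ⟨Λ, hΛ, hmain⟩ := hmain 2 ε hε
  obtain ⟨N₁, hN₁⟩ := eventually_atTop.1 hmain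
  refine ⟨5 * Λ, max N₁ (max N₂ 2), fun N hN H hH1 hH2 => ?_⟩
  have g1 : N₁ ≤ N := (le_max_left _ _).trans hN
  have g2 : N₂ ≤ N := (le_max_left _ _).trans ((le_max_right _ _).trans hN)
  have g3 : 2 ≤ N := (le_max_right _ _).trans ((le_max_right _ _).trans hN)
  have hN5 : N₁ ≤ N ^ 5 := g1.trans (Nat.le_self_pow (by norm_num) N)
  have hN35 : N ^ 3 ≤ N ^ 5 := Nat.pow_le_pow_right (by omega) (by norm_num)
  refine hN₁ (N ^ 5) hN5 H (by
    rw [Pool.Agent.J4.H57.QP.log_pow5]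
    linarith) (hH2.trans hN35) (bad δ N H) fun D hD => ?_
  unfold bad at hD
  rw [mem_filter, ← CT_eq] at hD
  obtain ⟨d1, d2, d3⟩ := hD
  refine ⟨d1, Pool.Agent.J4.H57.QP.adm_of_ne d2, ?_⟩
  by_contra hlt
  apply d3
  rw [not_lt] at hlt
  obtain ⟨hDsub, hDc⟩ := Finset.mem_powersetCard.1 d1
  have h0D : (0 : ℕ) ∉ D := fun h => by
    have := (mem_Icc.1 (hDsub h)).1
    omega
  have hT : (insert 0 D).card = 4 := by
    rw [card_insert_of_notMem h0D, hDc]
  obtain ⟨Q, hQ⟩ : ∃ Q : ℕ → Prop, Q = fun p => p.Prime ∧ ∀ d ∈ D,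
      (p + d).primeFactorsList.length ≤ 3 ∧ ∀ q ∈ (p + d).primeFactors,
        (((N ^ 5 : ℕ) : ℝ)) ^ (1 / 8 : ℝ) ≤ q := ⟨_, rfl⟩
  have hpow : (((N ^ 5 : ℕ) : ℝ)) ^ (1 / 8 : ℝ) = (N : ℝ) ^ (5 / 8 : ℝ) := by
    push_cast
    rw [← Real.rpow_natCast, ← Real.rpow_mul (Nat.cast_nonneg _)]
    norm_num
  have key := hN₂ N g2 (insert 0 D) hT (by
    intro t ht
    rw [mem_insert] at ht
    rcases ht with rfl | ht
    · exact Nat.zero_le _
    · exact (mem_Icc.1 (hDsub ht)).2.trans hH2) Q (by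
    intro n hn hnN m hm1 hm2 hQm t ht l hl hl8 hdvd
    rw [hQ] at hQm
    obtain ⟨q1, q2⟩ := hQm
    rw [mem_insert] at ht
    rcases ht with rfl | ht
    · have h1 : l = m := (Nat.prime_dvd_prime_iff_eq hl q1).1 (by simpa using hdvd)
      have h2 := diff_lt hn
      have h3 : l ≤ l ^ 8 := Nat.le_self_pow (by norm_num) _
      have h4 : 1 ≤ n ^ 5 := Nat.one_le_pow _ _ (by omega)
      omega
    · have h1 := (q2 t ht).2 l (Nat.mem_primeFactors.2 ⟨hl, hdvd, by
        have : 1 ≤ n ^ 5 := Nat.one_le_pow _ _ (by omega)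
        omega⟩)
      have h2 : (n + 1) ^ 5 - n ^ 5 < N ^ 5 := by
        have h3 := diff_lt hn
        have h4 : n ^ 5 ≤ N ^ 5 := Nat.pow_le_pow_left hnN 5
        have h5 : 1 ≤ n ^ 5 := Nat.one_le_pow _ _ (by omega)
        omega
      have h3 : l ^ 8 < N ^ 5 := lt_of_le_of_lt hl8 h2
      have h4 : (((N ^ 5 : ℕ) : ℝ)) ≤ (l : ℝ) ^ 8 := by
        have h5 := pow_le_pow_left₀ (by positivity) h1 8
        rw [← Real.rpow_natCast, ← Real.rpow_mul (Nat.cast_nonneg _)] at h5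
        norm_num at h5
        push_cast
        exact h5
      have h6 : ((l ^ 8 : ℕ) : ℝ) < ((N ^ 5 : ℕ) : ℝ) := by exact_mod_cast h3
      push_cast at h6 h4
      linarith) (by
    refine hlt.trans (le_of_eq ?_)
    unfold pi3
    rw [hQ]
    congr! 3)
  unfold Often
  unfold OftS at key
  refine key.trans (le_of_eq ?_)
  congr 2
  refine Finset.filter_congr fun n _ => ?_
  rw [CT_eq]
  have hset : {m : ℕ | Q m ∧ ∀ t ∈ insert 0 D, n ^ 5 < m + t ∧ m + t < (n + 1) ^ 5} =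
      {p : ℕ | p.Prime ∧ n ^ 5 < p ∧ p < (n + 1) ^ 5 ∧ ∀ d ∈ D, p + d < (n + 1) ^ 5 ∧
        (p + d).primeFactorsList.length ≤ 3 ∧
        ∀ q ∈ (p + d).primeFactors, (N : ℝ) ^ (5 / 8 : ℝ) ≤ q} := by
    ext m
    constructor
    · intro hm
      have hm' : Q m ∧ ∀ t ∈ insert 0 D, n ^ 5 < m + t ∧ m + t < (n + 1) ^ 5 := hm
      obtain ⟨a1, a2⟩ := hm'
      rw [hQ] at a1
      have a3 := a2 0 (mem_insert_self _ _)
      refine ⟨a1.1, by simpa using a3.1, by simpa using a3.2, fun d hd => ?_⟩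
      refine ⟨(a2 d (mem_insert_of_mem hd)).2, (a1.2 d hd).1, ?_⟩
      intro q hq
      rw [← hpow]
      exact (a1.2 d hd).2 q hq
    · intro hm
      have hm' : m.Prime ∧ n ^ 5 < m ∧ m < (n + 1) ^ 5 ∧ ∀ d ∈ D, m + d < (n + 1) ^ 5 ∧
        (m + d).primeFactorsList.length ≤ 3 ∧
        ∀ q ∈ (m + d).primeFactors, (N : ℝ) ^ (5 / 8 : ℝ) ≤ q := hm
      obtain ⟨a1, a2, a3, a4⟩ := hm'
      change Q m ∧ ∀ t ∈ insert 0 D, n ^ 5 < m + t ∧ m + t < (n + 1) ^ 5
      refine ⟨?_, fun t ht => ?_⟩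
      · rw [hQ]
        refine ⟨a1, fun d hd => ⟨(a4 d hd).2.1, fun q hq => ?_⟩⟩
        rw [hpow]
        exact (a4 d hd).2.2 q hq
      · rw [mem_insert] at ht
        rcases ht with rfl | ht
        · exact ⟨by simpa using a2, by simpa using a3⟩
        · exact ⟨by omega, (a4 t ht).1⟩
  beta_reduce
  rw [hset]
  rfl

end Pool.Agent.Results.MP_c03ca8_nt.AlmostAllPatterns
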