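import Pool.Agent.J4.H57.QP.St
import Pool.Agent.Results.MP_e87c7d_nt.RightOrderMultiples

/-!
# Prime quadruplets between consecutive fifth powers: patterns in almost every direction

Golubew's question is about the pattern `(0, 2, 6, 8)` and all `n`.  We consider the patterns
`(0, d h_1, d h_2, d h_3)` in the direction `h = (h_1, h_2, h_3)`.

There are `L` and `c > 0` such that for all `ε, lam > 0` there is `δ > 0` such that for all `C` and all
large `N`: for all `q ≥ 1`, all `E ≥ L` and all boxes `(u_1, u_1 + H] × (u_2, u_2 + H] × (u_3, u_3 + H]`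
with side `H ≥ lam log N`, all entries of which multiplied by `q E` are at most `(log N) ^ C`, all but a
proportion `ε` of the vectors `h` of the box have at least `c E` multiples `e q h`, `1 ≤ e ≤ E`, which are
good: the numbers `0, e q h_1, e q h_2, e q h_3` are four different numbers which miss a class modulo
every prime, and for at least `δ N` of the `n ≤ N` there are at least `δ 𝔖 n ^ 4 / (log n) ^ 4` primes `p`
such that `p, p + e q h_1, p + e q h_2, p + e q h_3` are primes between `n ^ 5` and `(n + 1) ^ 5`; this is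
the number predicted by Hardy and Littlewood, up to a constant factor.

For instance the box can consist of vectors with almost the same direction as `(2, 6, 8)`, with
`u = (2 R, 6 R, 8 R)` and `H = η R`, `lam log N ≤ η R`.  So for a positive proportion of the `n ≤ N` there
are as many quadruplets with nearly the shape of Golubew's pattern between `n ^ 5` and `(n + 1) ^ 5` as
expected (up to a constant), with a diameter `≤ lam' log N`, where `lam' > 0` is arbitrarily small.

Proof.  The result `MP_e87c7d_nt.RightOrderMultiples` of the starting files on the number of the prime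
tuples up to `N ^ 5` is combined with an upper bound sieve in the intervals between consecutive fifth
powers, uniform in the pattern and correct up to a constant (`Pool.Agent.J4.H57.QP`).
-/

set_option autoImplicit false

open Finset Filter

namespace Pool.Agent.Results.MP_c03ca8_nt.AlmostEveryDirection

/-- the number of residue classes modulo `p` occupied by `T` -/
def nu (T : Finset ℕ) (p : ℕ) : ℕ := (T.image (· % p)).card

/-- the factor at `p` of the singular series -/
noncomputable def loc (T : Finset ℕ) (p : ℕ) : ℝ :=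
  (1 - (nu T p : ℝ) / p) / (1 - 1 / (p : ℝ)) ^ T.card

/-- the number of the `m` such that all `m + t`, `t ∈ T`, are primes between `n ^ 5` and
`(n + 1) ^ 5` -/
noncomputable def quadruplets (T : Finset ℕ) (n : ℕ) : ℕ :=
  {m : ℕ | (∀ t ∈ T, (m + t).Prime) ∧ ∀ t ∈ T, n ^ 5 < m + t ∧ m + t < (n + 1) ^ 5}.ncard

open Classical in
/-- `T` has four elements, its singular series converges to some `S > 0`, and for at least `δ N` of
the `n ≤ N` there are at least `δ S n ^ 4 / (log n) ^ 4` quadruplets of primes `m + t`, `t ∈ T`,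
between `n ^ 5` and `(n + 1) ^ 5` -/
def Good (δ : ℝ) (N : ℕ) (T : Finset ℕ) : Prop :=
  T.card = 4 ∧ ∃ S : ℝ, 0 < S ∧ HasProd (fun p : Nat.Primes => loc T p) S ∧
    δ * N ≤ (((Icc 1 N).filter (fun n : ℕ =>
      δ * S * ((n : ℝ) ^ 4 / Real.log n ^ 4) ≤ (quadruplets T n : ℝ))).card : ℝ)

/-- the pattern `0, d h_1, d h_2, d h_3` -/
def pattern (d : ℕ) (h : Fin 3 → ℕ) : Finset ℕ := insert 0 (univ.image (fun l => d * h l))

open Pool.Agent.H387R2.Uni Pool.Agent.J4.H57.QP

open Classical in
/-- **Theorem.** There are `L` and `c > 0` such that for all `ε, lam > 0` there is `δ > 0` such that for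
all `C` there is `N₀` such that for all `N ≥ N₀`, `q ≥ 1`, `E ≥ L`, `H ≥ lam log N` and `u ∈ ℕ ^ 3` with
`q E (u_l + H) ≤ (log N) ^ C`: for at least `(1 - ε) H ^ 3` vectors `h` with `u_l < h_l ≤ u_l + H` at
least `c E` of the patterns `0, e q h_1, e q h_2, e q h_3`, `1 ≤ e ≤ E`, are good. -/
theorem result : ∃ (L : ℕ) (c : ℝ), 0 < c ∧ ∀ ε lam : ℝ, 0 < ε → 0 < lam → ∃ δ : ℝ, 0 < δ ∧
    ∀ C : ℝ, ∃ N₀ : ℕ, ∀ N : ℕ, N₀ ≤ N → ∀ q : ℕ, 1 ≤ q → ∀ E : ℕ, L ≤ E →
    ∀ (H : ℕ) (u : Fin 3 → ℕ), lam * Real.log N ≤ H →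
    (∀ l, (q : ℝ) * E * (u l + H) ≤ Real.log N ^ C) →
    (1 - ε) * (H : ℝ) ^ 3 ≤ (((Fintype.piFinset (fun l => Ioc (u l) (u l + H))).filter (fun h =>
      c * E ≤ (((Icc 1 E).filter (fun e => Good δ N (pattern (e * q) h))).card : ℝ))).card : ℝ) := by
  have tN : Tendsto (fun N : ℕ => (N : ℝ)) atTop atTop := tendsto_natCast_atTop_atTop
  obtain ⟨L, c, hc, h1⟩ := Pool.Agent.Results.MP_e87c7d_nt.RightOrderMultiples.result 3 (by norm_num)
  refine ⟨L, c, hc, fun ε lam hε hlam => ?_⟩
  obtain ⟨κ, hκ, h1⟩ := h1 ε (lam / 5) hε (by positivity)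
  obtain ⟨δ, hδ, N₂, hN₂⟩ := step hκ
  refine ⟨δ, hδ, fun C => ?_⟩
  obtain ⟨N₁, hN₁⟩ := h1 (max C 0)
  obtain ⟨N₃, hN₃⟩ := eventually_atTop.1
    (((Real.tendsto_log_atTop.comp tN).eventually_ge_atTop 1).and (log_small C))
  refine ⟨max N₁ (max N₂ N₃), fun N hN q hq E hE H u hH hu => ?_⟩
  have g1 : N₁ ≤ N := (le_max_left _ _).trans hN
  have g2 : N₂ ≤ N := (le_max_left _ _).trans ((le_max_right _ _).trans hN)
  have g3 : N₃ ≤ N := (le_max_right _ _).trans ((le_max_right _ _).trans hN)
  obtain ⟨hlog, hsm⟩ := hN₃ N g3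
  have hlog : 1 ≤ Real.log N := hlog
  have hN5 : N₁ ≤ N ^ 5 := g1.trans (Nat.le_self_pow (by norm_num) N)
  have key := hN₁ (N ^ 5) hN5 q hq E hE H u (by
    rw [log_pow5]
    refine le_trans (le_of_eq ?_) hH
    ring) (by
    intro l
    refine (hu l).trans ?_
    rw [log_pow5]
    calc Real.log N ^ C ≤ Real.log N ^ (max C 0) :=
          Real.rpow_le_rpow_of_exponent_le hlog (le_max_left _ _)
      _ ≤ (5 * Real.log N) ^ (max C 0) :=
          Real.rpow_le_rpow (by linarith) (by linarith) (le_max_right _ _))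
  refine key.trans ?_
  rw [Nat.cast_le]
  refine card_le_card fun h hh => ?_
  rw [mem_filter] at hh ⊢
  refine ⟨hh.1, hh.2.trans ?_⟩
  rw [Nat.cast_le]
  refine card_le_card fun e he => ?_
  rw [mem_filter] at he ⊢
  refine ⟨he.1, ?_⟩
  obtain ⟨j1, S, j2, j3, j4⟩ := he.2
  have hCT : CT (pattern (e * q) h) = S := by
    have h2 := CT_hasProd (pattern (e * q) h)
    exact h2.unique j3
  refine ⟨j1, S, j2, j3, ?_⟩
  have hE1 : e ≤ E := (mem_Icc.1 he.1).2
  have h5 := hN₂ N g2 (pattern (e * q) h) j1 (by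
    intro t ht
    unfold pattern at ht
    rw [mem_insert, mem_image] at ht
    rcases ht with rfl | ⟨l, _, rfl⟩
    · exact Nat.zero_le _
    · have h6 := Fintype.mem_piFinset.1 hh.1 l
      rw [mem_Ioc] at h6
      have h7 : ((e * q * h l : ℕ) : ℝ) ≤ ((N ^ 3 : ℕ) : ℝ) := by
        refine le_trans ?_ ((hu l).trans hsm)
        have h8 : e * q * h l ≤ q * E * (u l + H) := by
          calc e * q * h l ≤ E * q * (u l + H) :=
                Nat.mul_le_mul (Nat.mul_le_mul hE1 le_rfl) h6.2
            _ = q * E * (u l + H) := by ring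
        calc ((e * q * h l : ℕ) : ℝ) ≤ ((q * E * (u l + H) : ℕ) : ℝ) := by exact_mod_cast h8
          _ = (q : ℝ) * E * (u l + H) := by push_cast; ring
      exact_mod_cast h7) (fun m => ∀ t ∈ pattern (e * q) h, (m + t).Prime)
    (rough_of_prime (fun m hm => hm) N) (by
      rw [hCT]
      refine j4.trans (le_of_eq ?_)
      unfold Pool.Agent.Results.MP_e87c7d_nt.RightOrderMultiples.count
      congr!)
  unfold OftS at h5
  rw [hCT] at h5
  exact h5

end Pool.Agent.Results.MP_c03ca8_nt.AlmostEveryDirection
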