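import Mathlib
import Pool.Agent.J4.H57.DS.Cns
import Pool.Agent.J4.H57.DS.Hoh

/-!
# Tuples of TRUE primes, in arbitrary dense sets of primes, between ALL consecutive fifth powers, for a positive proportion of patterns

Golubew asks for prime quadruplets `p, p + 2, p + 6, p + 8` between `n ^ 5` and `(n + 1) ^ 5` for all `n`. Let `j ≥ 3` (the problem
is `j = 5`) and `q ≥ 1` (the problem is `q = 3`). For EVERY large `n`, every set `P` of a positive proportion of the primes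
between `n ^ j` and `(n + 1) ^ j` and every `H` with `Λ log n ≤ H ≤ n ^ (j - 1)`, a positive proportion of ALL the sets `D` of `q`
elements of `[1, H]` has the property that `P` contains at least `c n ^ (j - 1) / (log n) ^ (q + 1)` of the sets
`{p} ∪ (p + D)`: the order of magnitude which Hardy and Littlewood conjecture for the number of all prime tuples of the
pattern `{0} ∪ D` in this interval. In particular (`P` the set of all primes of the interval) this holds for the quadruplets of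
primes. If `H` is between two multiples of `log n` there are even as many tuples of CONSECUTIVE elements of `P`. The
constants depend only on `j`, `q` and the density of `P`, not on `n`, `H` and `P`.

Proof. Most elements of `P` have the expected number of elements of `P` behind them up to the distance `H` (Brun's pigeonhole
principle, which needs the number of the primes between consecutive `j`-th powers only). This gives the first moment over
the patterns. The second moment is bounded by an upper bound sieve in short intervals which is uniform in the pattern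
(`Pool.Agent.J4.H57.QP.upper`) and by the second moment of the singular series.
-/

set_option autoImplicit false

namespace Pool.Agent.Results.MP_c03ca8_nt.DenseTuplesEveryInterval

open Finset Filter

/-- the primes between `n ^ j` and `(n + 1) ^ j` -/
def primesBetween (j n : ℕ) : Finset ℕ := (Ioo (n ^ j) ((n + 1) ^ j)).filter Nat.Prime

/-- the number of the `p ∈ P` such that `p + d ∈ P` for all `d ∈ D` -/
def tuples (P D : Finset ℕ) : ℕ := (P.filter (fun p => ∀ d ∈ D, p + d ∈ P)).card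

/-- the number of the `p ∈ P` such that `p + d ∈ P` for all `d ∈ D` and there are no other elements of `P` between `p` and
`p + max D` -/
def consecutive (P D : Finset ℕ) : ℕ :=
  (P.filter (fun p => (∀ d ∈ D, p + d ∈ P) ∧ ∀ r ∈ P, ∀ d ∈ D, p < r → r < p + d → r - p ∈ D)).card

/-- the integers between two `j`-th powers as an interval `(z, z + N]` -/
lemma interval (j : ℕ) (hj : 3 ≤ j) : ∃ n₀ : ℕ, 1 ≤ n₀ ∧ ∀ n : ℕ, n₀ ≤ n →
    ∃ N : ℕ, n ^ j + N + 1 = (n + 1) ^ j ∧ 2 * n ^ (j - 1) ≤ N ∧ 3 * N ≤ n ^ j ∧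
      (N : ℝ) ≤ 2 * j * (n : ℝ) ^ (j - 1) := by
  refine ⟨4 * j, by omega, fun n hn => ?_⟩
  obtain ⟨i, rfl⟩ : ∃ i, j = i + 1 := ⟨j - 1, by omega⟩
  rw [Nat.add_sub_cancel]
  have hn1 : 1 ≤ n := by omega
  have hnr : (0 : ℝ) < n := by exact_mod_cast hn1
  have hpos : 1 ≤ n ^ i := Nat.one_le_pow _ _ hn1
  have hsplit : ((n : ℝ) + 1) ^ (i + 1) = (n : ℝ) ^ (i + 1) * (1 + 1 / n) ^ (i + 1) := by
    rw [← mul_pow]
    congr 1
    field_simp
  have hbin : n ^ (i + 1) + (i + 1) * n ^ i ≤ (n + 1) ^ (i + 1) := by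
    have h1 : (1 : ℝ) + (i + 1 : ℕ) * (1 / n) ≤ (1 + 1 / n) ^ (i + 1) :=
      one_add_mul_le_pow (by have : (0 : ℝ) ≤ 1 / n := by positivity
                             linarith) (i + 1)
    have h3 : (n : ℝ) ^ (i + 1) + (i + 1) * (n : ℝ) ^ i = (n : ℝ) ^ (i + 1) * (1 + (i + 1 : ℕ) * (1 / n)) := by
      push_cast
      field_simp
      ring
    have h4 : (n : ℝ) ^ (i + 1) + (i + 1) * (n : ℝ) ^ i ≤ ((n : ℝ) + 1) ^ (i + 1) := by
      rw [hsplit, h3]
      exact mul_le_mul_of_nonneg_left h1 (by positivity)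
    exact_mod_cast h4
  have h4 : 3 * n ^ i ≤ (i + 1) * n ^ i := Nat.mul_le_mul_right _ hj
  obtain ⟨N, hN⟩ : ∃ N, N = (n + 1) ^ (i + 1) - n ^ (i + 1) - 1 := ⟨_, rfl⟩
  have hN1 : n ^ (i + 1) + N + 1 = (n + 1) ^ (i + 1) := by omega
  have hN2 : 2 * n ^ i ≤ N := by omega
  have hx0 : (0 : ℝ) ≤ ((i + 1 : ℕ) : ℝ) * (1 / n) := by positivity
  have hx1 : ((i + 1 : ℕ) : ℝ) * (1 / n) ≤ 1 / 4 := by
    have h9 : 4 * ((i + 1 : ℕ) : ℝ) ≤ n := by exact_mod_cast hn
    rw [mul_one_div, div_le_iff₀ hnr]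
    linarith
  have h5 : (1 + 1 / (n : ℝ)) ^ (i + 1) ≤ 1 + 4 / 3 * (((i + 1 : ℕ) : ℝ) * (1 / n)) := by
    have h6 : 1 + 1 / (n : ℝ) ≤ Real.exp (1 / n) := by
      have := Real.add_one_le_exp (1 / (n : ℝ))
      linarith
    have h7 : (1 + 1 / (n : ℝ)) ^ (i + 1) ≤ Real.exp (((i + 1 : ℕ) : ℝ) * (1 / n)) := by
      rw [Real.exp_nat_mul]
      exact pow_le_pow_left₀ (by positivity) h6 _
    refine h7.trans ?_
    obtain ⟨x, hx⟩ : ∃ x : ℝ, x = ((i + 1 : ℕ) : ℝ) * (1 / n) := ⟨_, rfl⟩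
    rw [← hx] at hx0 hx1 ⊢
    have h9 : 1 - x ≤ Real.exp (-x) := by
      have := Real.add_one_le_exp (-x)
      linarith
    have h10 : Real.exp x * Real.exp (-x) = 1 := by
      rw [← Real.exp_add]; norm_num
    have h11 := Real.exp_pos x
    have h12 : Real.exp x * (1 - x) ≤ 1 := (mul_le_mul_of_nonneg_left h9 h11.le).trans h10.le
    have h13 : 1 ≤ (1 + 4 / 3 * x) * (1 - x) := by nlinarith
    have h14 : 0 < 1 - x := by linarith
    exact le_of_mul_le_mul_right (h12.trans h13) h14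
  have hNr0 : (N : ℝ) ≤ 4 / 3 * ((i + 1 : ℕ) : ℝ) * (n : ℝ) ^ i := by
    have h12 : ((n ^ (i + 1) + N : ℕ) : ℝ) ≤ (((n + 1) ^ (i + 1) : ℕ) : ℝ) := by
      exact_mod_cast (by omega : n ^ (i + 1) + N ≤ (n + 1) ^ (i + 1))
    push_cast at h12
    rw [hsplit] at h12
    have h13 : (n : ℝ) ^ (i + 1) * (1 + 1 / n) ^ (i + 1) ≤
        (n : ℝ) ^ (i + 1) * (1 + 4 / 3 * (((i + 1 : ℕ) : ℝ) * (1 / n))) :=
      mul_le_mul_of_nonneg_left h5 (by positivity)
    have h14 : (n : ℝ) ^ (i + 1) * (1 + 4 / 3 * (((i + 1 : ℕ) : ℝ) * (1 / n))) =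
        (n : ℝ) ^ (i + 1) + 4 / 3 * ((i + 1 : ℕ) : ℝ) * (n : ℝ) ^ i := by
      rw [pow_succ]
      field_simp
    linarith
  have hni : (0 : ℝ) < (n : ℝ) ^ i := by positivity
  have hNr : (N : ℝ) ≤ 1 / 3 * (n : ℝ) ^ (i + 1) := by
    refine hNr0.trans ?_
    have h9 : 4 * ((i + 1 : ℕ) : ℝ) ≤ n := by exact_mod_cast hn
    rw [pow_succ]
    nlinarith
  refine ⟨N, hN1, hN2, ?_, ?_⟩
  · have h15 : (3 : ℝ) * N ≤ (n : ℝ) ^ (i + 1) := by linarith
    exact_mod_cast h15
  · refine hNr0.trans ?_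
    have h16 : (0 : ℝ) ≤ ((i + 1 : ℕ) : ℝ) * (n : ℝ) ^ i := by positivity
    nlinarith

/-- the right order of magnitude of the number of primes between consecutive `j`-th powers -/
theorem primes_powers (j : ℕ) (hj : 3 ≤ j) : ∃ c : ℝ, 0 < c ∧ ∃ n₀ : ℕ, ∀ n : ℕ, n₀ ≤ n →
    c * ((n : ℝ) ^ (j - 1) / Real.log n) ≤ ((primesBetween j n).card : ℝ) := by
  classical
  obtain ⟨c, hc, hev⟩ := Pool.Agent.J4.H57.DS.primes_short
  obtain ⟨z₀, hz₀⟩ := eventually_atTop.1 hev
  obtain ⟨n₁, hn₁, hint⟩ := interval j hj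
  have hj0 : (0 : ℝ) < j := by exact_mod_cast (by omega : 0 < j)
  refine ⟨c / j, by positivity, max (max z₀ n₁) 3, fun n hn => ?_⟩
  have hnz : z₀ ≤ n := (le_max_left _ _).trans ((le_max_left _ _).trans hn)
  have hnn : n₁ ≤ n := (le_max_right _ _).trans ((le_max_left _ _).trans hn)
  have hn3 : 3 ≤ n := (le_max_right _ _).trans hn
  obtain ⟨N, hN1, hN2, hN3, hN4⟩ := hint n hnn
  have hnr : (1 : ℝ) < n := by exact_mod_cast (by omega : 1 < n)
  have hn0 : (0 : ℝ) < n := by linarith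
  have hzn : z₀ ≤ n ^ j := hnz.trans (Nat.le_self_pow (by omega) n)
  have h1 := hz₀ (n ^ j) hzn N ?_ hN3
  · have h2 : (Ioc (n ^ j) (n ^ j + N)).filter Nat.Prime ⊆ primesBetween j n := by
      intro p hp
      unfold primesBetween
      rw [mem_filter, mem_Ioc] at hp
      rw [mem_filter, mem_Ioo]
      exact ⟨⟨hp.1.1, by omega⟩, hp.2⟩
    have h3 : (((Ioc (n ^ j) (n ^ j + N)).filter Nat.Prime).card : ℝ) ≤
        ((primesBetween j n).card : ℝ) := by exact_mod_cast card_le_card h2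
    refine le_trans ?_ (h1.trans h3)
    have hNr : (n : ℝ) ^ (j - 1) ≤ N := by
      have : n ^ (j - 1) ≤ N := by omega
      exact_mod_cast this
    have hn1' : (3 : ℝ) ≤ (n : ℝ) ^ (j - 1) := by
      have h4 : (3 : ℝ) ≤ n := by exact_mod_cast hn3
      calc (3 : ℝ) ≤ n := h4
        _ = (n : ℝ) ^ 1 := (pow_one _).symm
        _ ≤ (n : ℝ) ^ (j - 1) := pow_le_pow_right₀ hnr.le (by omega)
    have hN0 : (0 : ℝ) < N := by linarith
    have hlN : Real.log N ≤ j * Real.log n := by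
      rw [← Real.log_pow]
      refine Real.log_le_log hN0 ?_
      have h5 : N ≤ n ^ j := by omega
      exact_mod_cast h5
    have hl0 : 0 < Real.log n := Real.log_pos hnr
    have hlN0 : 0 < Real.log N := Real.log_pos (by linarith)
    have h6 : (n : ℝ) ^ (j - 1) / Real.log n ≤ j * (N / Real.log N) := by
      rw [mul_div_assoc', div_le_div_iff₀ hl0 hlN0]
      calc (n : ℝ) ^ (j - 1) * Real.log N ≤ N * (j * Real.log n) := mul_le_mul hNr hlN hlN0.le hN0.le
        _ = j * N * Real.log n := by ring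
    calc c / j * ((n : ℝ) ^ (j - 1) / Real.log n) ≤ c / j * (j * (N / Real.log N)) :=
          mul_le_mul_of_nonneg_left h6 (by positivity)
      _ = c * (N / Real.log N) := by field_simp
  · push_cast
    rw [← Real.rpow_natCast, ← Real.rpow_mul hn0.le]
    have h7 : (n : ℝ) ^ ((j : ℝ) * (13 / 20)) ≤ (n : ℝ) ^ (((j - 1 : ℕ) : ℝ)) := by
      refine Real.rpow_le_rpow_of_exponent_le hnr.le ?_
      have h8 : (3 : ℝ) ≤ j := by exact_mod_cast hj
      rw [Nat.cast_sub (by omega)]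
      push_cast
      linarith
    refine h7.trans ?_
    rw [Real.rpow_natCast]
    have : n ^ (j - 1) ≤ N := by omega
    exact_mod_cast this

/-- comparison of the orders of magnitude -/
lemma compare {j q : ℕ} {n N : ℕ} (hn : 3 ≤ n) (hN1 : n ^ (j - 1) ≤ N) (hj : 2 ≤ j) (hN2 : N ≤ n ^ j)
    (hN3 : (N : ℝ) ≤ 2 * j * (n : ℝ) ^ (j - 1)) :
    Real.log n ≤ Real.log N ∧ Real.log N ≤ j * Real.log n ∧
    (N : ℝ) / Real.log N ≤ 2 * j * ((n : ℝ) ^ (j - 1) / Real.log n) ∧
    (n : ℝ) ^ (j - 1) / Real.log n ^ (q + 1) ≤ (j : ℝ) ^ (q + 1) * (N / Real.log N ^ (q + 1)) := by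
  have hnr : (1 : ℝ) < n := by exact_mod_cast (by omega : 1 < n)
  have hn0 : (0 : ℝ) < n := by linarith
  have hj0 : (0 : ℝ) < j := by exact_mod_cast (by omega : 0 < j)
  have hnN : n ≤ N := (Nat.le_self_pow (by omega) n).trans hN1
  have hNr : (n : ℝ) ≤ N := by exact_mod_cast hnN
  have hN0 : (0 : ℝ) < N := by linarith
  have hl0 : 0 < Real.log n := Real.log_pos hnr
  have h1 : Real.log n ≤ Real.log N := Real.log_le_log hn0 hNr
  have h2 : Real.log N ≤ j * Real.log n := by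
    rw [← Real.log_pow]
    refine Real.log_le_log hN0 ?_
    exact_mod_cast hN2
  have hlN : 0 < Real.log N := by linarith
  refine ⟨h1, h2, ?_, ?_⟩
  · calc (N : ℝ) / Real.log N ≤ 2 * j * (n : ℝ) ^ (j - 1) / Real.log n := div_le_div₀ (by positivity) hN3 hl0 h1
      _ = _ := by ring
  · rw [mul_div_assoc', div_le_div_iff₀ (by positivity) (by positivity)]
    have h3 : (n : ℝ) ^ (j - 1) ≤ N := by exact_mod_cast hN1
    have h4 : Real.log N ^ (q + 1) ≤ (j * Real.log n) ^ (q + 1) := pow_le_pow_left₀ hlN.le h2 _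
    calc (n : ℝ) ^ (j - 1) * Real.log N ^ (q + 1) ≤ N * (j * Real.log n) ^ (q + 1) :=
          mul_le_mul h3 h4 (by positivity) hN0.le
      _ = (j : ℝ) ^ (q + 1) * N * Real.log n ^ (q + 1) := by rw [mul_pow]; ring

open Classical in
/-- **Tuples in dense sets of primes between all consecutive powers.** Let `j ≥ 3` and `q ≥ 1`; the problem is `j = 5`, `q = 3`.

(1) For every `δ > 0` there are `c > 0`, `Λ` and `n₀` such that for all `n ≥ n₀`, ANY set `P` of at least `δ n ^ (j - 1) / log n`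
primes between `n ^ j` and `(n + 1) ^ j`, and all `H` with `Λ log n ≤ H ≤ n ^ (j - 1)`: for at least `c H ^ q` of the sets `D` of `q`
elements of `[1, H]` there are at least `c n ^ (j - 1) / (log n) ^ (q + 1)` elements `p` of `P` with `p + d ∈ P` for all `d ∈ D`.

(2) For every `δ > 0` there is `Λ` such that for every `Λ'` there are `c > 0` and `n₀` such that for all `n ≥ n₀`, ANY
such set `P`, and all `H` with `Λ log n ≤ H ≤ Λ' log n`: for at least `c H ^ q` of the sets `D` of `q` elements of `[1, H]` there are at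
least `c n ^ (j - 1) / (log n) ^ (q + 1)` elements `p` of `P` such that `p` and the `p + d`, `d ∈ D`, are consecutive elements of `P`.

(3) There is `c₁ > 0` such that for all large `n` there are at least `c₁ n ^ (j - 1) / log n` primes between `n ^ j` and
`(n + 1) ^ j`; so (1) and (2) hold for the set `P` of all the primes between `n ^ j` and `(n + 1) ^ j`, with `δ = c₁`. -/
theorem result (j q : ℕ) (hj : 3 ≤ j) (hq : 1 ≤ q) :
    (∀ δ : ℝ, 0 < δ → ∃ (c Λ : ℝ) (n₀ : ℕ), 0 < c ∧ 0 < Λ ∧ ∀ n : ℕ, n₀ ≤ n → ∀ P ⊆ primesBetween j n,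
      δ * ((n : ℝ) ^ (j - 1) / Real.log n) ≤ P.card → ∀ H : ℕ, Λ * Real.log n ≤ H → H ≤ n ^ (j - 1) →
        c * (H : ℝ) ^ q ≤ ((((Icc 1 H).powersetCard q).filter (fun D =>
          c * ((n : ℝ) ^ (j - 1) / Real.log n ^ (q + 1)) ≤ tuples P D)).card : ℝ)) ∧
    (∀ δ : ℝ, 0 < δ → ∃ Λ : ℝ, 0 < Λ ∧ ∀ Λ' : ℝ, ∃ (c : ℝ) (n₀ : ℕ), 0 < c ∧ ∀ n : ℕ, n₀ ≤ n → ∀ P ⊆ primesBetween j n,
      δ * ((n : ℝ) ^ (j - 1) / Real.log n) ≤ P.card →
      ∀ H : ℕ, Λ * Real.log n ≤ H → (H : ℝ) ≤ Λ' * Real.log n →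
        c * (H : ℝ) ^ q ≤ ((((Icc 1 H).powersetCard q).filter (fun D =>
          c * ((n : ℝ) ^ (j - 1) / Real.log n ^ (q + 1)) ≤ consecutive P D)).card : ℝ)) ∧
    (∃ (c₁ : ℝ) (n₀ : ℕ), 0 < c₁ ∧ ∀ n : ℕ, n₀ ≤ n →
      c₁ * ((n : ℝ) ^ (j - 1) / Real.log n) ≤ ((primesBetween j n).card : ℝ)) := by
  have hj0 : (0 : ℝ) < j := by exact_mod_cast (by omega : 0 < j)
  have hj1 : (1 : ℝ) ≤ j := by exact_mod_cast (by omega : 1 ≤ j)
  obtain ⟨n₁, hn₁, hint⟩ := interval j hj
  have hsubP : ∀ n N : ℕ, n ^ j + N + 1 = (n + 1) ^ j → ∀ P ⊆ primesBetween j n,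
      P ⊆ (Ioc (n ^ j) (n ^ j + N)).filter Nat.Prime := by
    intro n N hN P hP p hp
    have h1 := hP hp
    unfold primesBetween at h1
    rw [mem_filter, mem_Ioo] at h1
    rw [mem_filter, mem_Ioc]
    exact ⟨⟨h1.1.1, by omega⟩, h1.2⟩
  refine ⟨fun δ hδ => ?_, fun δ hδ => ?_, ?_⟩
  · obtain ⟨c, Λ, hc, hΛ, N₀, h⟩ := Pool.Agent.J4.H57.DS.dense_tuples q hq (δ / (2 * j)) (by positivity)
    refine ⟨c / (j : ℝ) ^ (q + 1), j * Λ, max (max N₀ n₁) 3, by positivity, by positivity, fun n hn P hP hPc H hH1 hH2 => ?_⟩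
    have hnN₀ : N₀ ≤ n := (le_max_left _ _).trans ((le_max_left _ _).trans hn)
    have hnn : n₁ ≤ n := (le_max_right _ _).trans ((le_max_left _ _).trans hn)
    have hn3 : 3 ≤ n := (le_max_right _ _).trans hn
    obtain ⟨N, hN1, hN2, hN3, hN4⟩ := hint n hnn
    have hNN : n ^ (j - 1) ≤ N := by omega
    have hnN : n ≤ N := (Nat.le_self_pow (by omega) n).trans hNN
    obtain ⟨k1, k2, k3, k4⟩ := compare (q := q) hn3 hNN (by omega) (by omega) hN4
    have hd : δ / (2 * j) * (N / Real.log N) ≤ P.card := by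
      refine le_trans ?_ hPc
      calc δ / (2 * j) * (N / Real.log N) ≤ δ / (2 * j) * (2 * j * ((n : ℝ) ^ (j - 1) / Real.log n)) :=
            mul_le_mul_of_nonneg_left k3 (by positivity)
        _ = _ := by field_simp
    have hHl : Λ * Real.log N ≤ H := by
      refine le_trans ?_ hH1
      calc Λ * Real.log N ≤ Λ * (j * Real.log n) := mul_le_mul_of_nonneg_left k2 hΛ.le
        _ = _ := by ring
    have h1 := h (n ^ j) N (hnN₀.trans hnN) (by omega) P (hsubP n N hN1 P hP) hd H hHl (hH2.trans hNN)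
    have hcj : c / (j : ℝ) ^ (q + 1) ≤ c := div_le_self hc.le (one_le_pow₀ hj1)
    refine (mul_le_mul_of_nonneg_right hcj (by positivity)).trans (h1.trans ?_)
    have h2 : ((Icc 1 H).powersetCard q).filter (fun D => c * ((N : ℝ) / Real.log N ^ (q + 1)) ≤
        (Pool.Agent.J4.H57.DS.cntD P D : ℝ)) ⊆ ((Icc 1 H).powersetCard q).filter (fun D =>
          c / (j : ℝ) ^ (q + 1) * ((n : ℝ) ^ (j - 1) / Real.log n ^ (q + 1)) ≤ (tuples P D : ℝ)) := by
      intro D hD
      rw [mem_filter] at hD ⊢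
      refine ⟨hD.1, le_trans ?_ hD.2⟩
      calc c / (j : ℝ) ^ (q + 1) * ((n : ℝ) ^ (j - 1) / Real.log n ^ (q + 1)) ≤
            c / (j : ℝ) ^ (q + 1) * ((j : ℝ) ^ (q + 1) * (N / Real.log N ^ (q + 1))) :=
            mul_le_mul_of_nonneg_left k4 (by positivity)
        _ = c * (N / Real.log N ^ (q + 1)) := by field_simp
    exact_mod_cast card_le_card h2
  · obtain ⟨Λ, hΛ, h⟩ := Pool.Agent.J4.H57.DS.dense_consecutive q hq (δ / (2 * j)) (by positivity)
    refine ⟨j * Λ, by positivity, fun Λ' => ?_⟩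
    obtain ⟨c, hc, N₀, h⟩ := h (max Λ' 0)
    refine ⟨c / (j : ℝ) ^ (q + 1), max (max N₀ n₁) 3, by positivity, fun n hn P hP hPc H hH1 hH2 => ?_⟩
    have hnN₀ : N₀ ≤ n := (le_max_left _ _).trans ((le_max_left _ _).trans hn)
    have hnn : n₁ ≤ n := (le_max_right _ _).trans ((le_max_left _ _).trans hn)
    have hn3 : 3 ≤ n := (le_max_right _ _).trans hn
    obtain ⟨N, hN1, hN2, hN3, hN4⟩ := hint n hnn
    have hNN : n ^ (j - 1) ≤ N := by omega
    have hnN : n ≤ N := (Nat.le_self_pow (by omega) n).trans hNN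
    obtain ⟨k1, k2, k3, k4⟩ := compare (q := q) hn3 hNN (by omega) (by omega) hN4
    have hl0 : 0 ≤ Real.log n := Real.log_natCast_nonneg n
    have hd : δ / (2 * j) * (N / Real.log N) ≤ P.card := by
      refine le_trans ?_ hPc
      calc δ / (2 * j) * (N / Real.log N) ≤ δ / (2 * j) * (2 * j * ((n : ℝ) ^ (j - 1) / Real.log n)) :=
            mul_le_mul_of_nonneg_left k3 (by positivity)
        _ = _ := by field_simp
    have hHl : Λ * Real.log N ≤ H := by
      refine le_trans ?_ hH1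
      calc Λ * Real.log N ≤ Λ * (j * Real.log n) := mul_le_mul_of_nonneg_left k2 hΛ.le
        _ = _ := by ring
    have hHu : (H : ℝ) ≤ max Λ' 0 * Real.log N := by
      refine hH2.trans ?_
      exact mul_le_mul (le_max_left _ _) k1 hl0 (le_max_right _ _)
    have h1 := h (n ^ j) N (hnN₀.trans hnN) (by omega) P (hsubP n N hN1 P hP) hd H hHl hHu
    have hcj : c / (j : ℝ) ^ (q + 1) ≤ c := div_le_self hc.le (one_le_pow₀ hj1)
    refine (mul_le_mul_of_nonneg_right hcj (by positivity)).trans (h1.trans ?_)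
    have h2 : ((Icc 1 H).powersetCard q).filter (fun D => c * ((N : ℝ) / Real.log N ^ (q + 1)) ≤
        (Pool.Agent.J4.H57.DS.conD P D : ℝ)) ⊆ ((Icc 1 H).powersetCard q).filter (fun D =>
          c / (j : ℝ) ^ (q + 1) * ((n : ℝ) ^ (j - 1) / Real.log n ^ (q + 1)) ≤ (consecutive P D : ℝ)) := by
      intro D hD
      rw [mem_filter] at hD ⊢
      refine ⟨hD.1, le_trans ?_ hD.2⟩
      calc c / (j : ℝ) ^ (q + 1) * ((n : ℝ) ^ (j - 1) / Real.log n ^ (q + 1)) ≤
            c / (j : ℝ) ^ (q + 1) * ((j : ℝ) ^ (q + 1) * (N / Real.log N ^ (q + 1))) :=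
            mul_le_mul_of_nonneg_left k4 (by positivity)
        _ = c * (N / Real.log N ^ (q + 1)) := by field_simp
    exact_mod_cast card_le_card h2
  · obtain ⟨c₁, hc₁, n₀, h⟩ := primes_powers j hj
    exact ⟨c₁, n₀, hc₁, h⟩

end Pool.Agent.Results.MP_c03ca8_nt.DenseTuplesEveryInterval
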