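import Pool.Agent.J4.H57.QP.St
import Pool.Agent.Results.MP_e87c7d_nt.QuarterAtEveryScale
import Pool.Agent.Results.MP_e87c7d_nt.ConsecutiveTuples

/-!
# Prime quadruplets between consecutive fifth powers: a positive proportion of all patterns, the right
# order of magnitude for a positive proportion of all `n`

Golubew's question is about the pattern `{0, 2, 6, 8}` and all `n`.  For a pattern `T` (a set of four
integers) let `quadruplets T n` be the number of the `m` such that all `m + t`, `t ∈ T`, are primes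
strictly between `n ^ 5` and `(n + 1) ^ 5`; the prediction of Hardy and Littlewood is
`𝔖(T) n ^ 4 / (125 (log n) ^ 4)`.  We call `T` good at `N` (`Often δ`) if for at least `δ N` of the
`n ≤ N` there are at least `δ 𝔖(T) n ^ 4 / (log n) ^ 4` quadruplets of pattern `T` between `n ^ 5` and
`(n + 1) ^ 5`.

(1) For all `ε, lam > 0` there is `δ > 0` such that in EVERY set `A` of at least `lam log N` integers
up to a power of `log N` (also in every residue class modulo `q`, with `lam (φ(q) / q) log N` elements)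
at least the proportion `1 / 64 - ε` of the four-element subsets `T` of `A`, measured by the singular
series `𝔖(T)`, is good at `N`, `N ≥ N₀`.
(2) There is `Λ > 0` such that in every set `A` of at least `η log N` positive integers up to
`Λ log N` at least the proportion `1 / 1088430 - ε` of the four-element subsets `T` is good at `N` with
quadruplets of CONSECUTIVE primes.

In the starting files (`FourConsecutivePrimes`) there is one pattern in every admissible set of 290687
integers which has at least `n ^ (4 - ε)` quadruplets for at least `N ^ (1 - ε)` of the `n ≤ N`.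

Proof.  The results of the starting files `MP_e87c7d_nt.QuarterAtEveryScale` and
`MP_e87c7d_nt.ConsecutiveTuples` on the number of the prime tuples up to `N ^ 5` are combined with an
upper bound sieve in the intervals between consecutive fifth powers, uniform in `T` and correct up to a
constant (`Pool.Agent.J4.H57.QP`): few `n` cannot contain most of the quadruplets up to `N ^ 5`.
-/

set_option autoImplicit false

open Finset Filter

namespace Pool.Agent.Results.MP_c03ca8_nt.RightOrderPatterns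

/-- the number of residue classes modulo `p` occupied by `T` -/
def nu (T : Finset ℕ) (p : ℕ) : ℕ := (T.image (· % p)).card

/-- the factor at `p` of the singular series -/
noncomputable def loc (T : Finset ℕ) (p : ℕ) : ℝ :=
  (1 - (nu T p : ℝ) / p) / (1 - 1 / (p : ℝ)) ^ T.card

/-- the singular series of `T` -/
noncomputable def 𝔖 (T : Finset ℕ) : ℝ := ∏' p : Nat.Primes, loc T p

/-- the number of the `m` such that all `m + t`, `t ∈ T`, are primes between `n ^ 5` and
`(n + 1) ^ 5` -/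
noncomputable def quadruplets (T : Finset ℕ) (n : ℕ) : ℕ :=
  {m : ℕ | (∀ t ∈ T, (m + t).Prime) ∧ ∀ t ∈ T, n ^ 5 < m + t ∧ m + t < (n + 1) ^ 5}.ncard

/-- the numbers `m + t`, `t ∈ T`, are consecutive primes: they are prime, and every prime `m + j`
between two of them is one of them -/
def Consecutive (m : ℕ) (T : Finset ℕ) : Prop :=
  (∀ t ∈ T, (m + t).Prime) ∧
    ∀ j : ℕ, (∃ a ∈ T, a ≤ j) → (∃ b ∈ T, j ≤ b) → (m + j).Prime → j ∈ T

/-- the number of the `m` such that the `m + t`, `t ∈ T`, are consecutive primes between `n ^ 5` and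
`(n + 1) ^ 5` -/
noncomputable def consecutive (T : Finset ℕ) (n : ℕ) : ℕ :=
  {m : ℕ | Consecutive m T ∧ ∀ t ∈ T, n ^ 5 < m + t ∧ m + t < (n + 1) ^ 5}.ncard

open Classical in
/-- for at least `δ N` of the `n ≤ N` the number `c n` is at least `δ 𝔖(T) n ^ 4 / (log n) ^ 4` -/
def Often (δ : ℝ) (c : ℕ → ℕ) (T : Finset ℕ) (N : ℕ) : Prop :=
  δ * N ≤ (((Icc 1 N).filter (fun n : ℕ =>
    δ * 𝔖 T * ((n : ℝ) ^ 4 / Real.log n ^ 4) ≤ (c n : ℝ))).card : ℝ)

open Pool.Agent.H387R2.Uni Pool.Agent.J4.H57.QP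

theorem CT_eq (T : Finset ℕ) : CT T = 𝔖 T := rfl

/-- the common step -/
theorem prime_step {κ : ℝ} (hκ : 0 < κ) : ∃ δ : ℝ, 0 < δ ∧ ∃ N₀ : ℕ, ∀ N : ℕ, N₀ ≤ N →
    ∀ T : Finset ℕ, T.card = 4 → (∀ t ∈ T, t ≤ N ^ 3) →
    ∀ Q : ℕ → Prop, [DecidablePred Q] → (∀ m, Q m → ∀ t ∈ T, (m + t).Prime) →
    κ * CT T * (((N ^ 5 : ℕ) : ℝ) / Real.log ((N ^ 5 : ℕ) : ℝ) ^ 4) ≤
      (((Icc 1 (N ^ 5)).filter Q).card : ℝ) →
    Often δ (fun n => {m : ℕ | Q m ∧ ∀ t ∈ T, n ^ 5 < m + t ∧ m + t < (n + 1) ^ 5}.ncard) T N := by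
  obtain ⟨δ, hδ, N₀, hN₀⟩ := step hκ
  refine ⟨δ, hδ, N₀, fun N hN T hT hTB Q _ hQ hlb => ?_⟩
  refine hN₀ N hN T hT hTB Q (rough_of_prime hQ N) ?_
  convert hlb

theorem often_mono {δ δ' : ℝ} (h : δ' ≤ δ) {c : ℕ → ℕ} {T : Finset ℕ} {N : ℕ}
    (h1 : Often δ c T N) : Often δ' c T N :=
  oftS_mono (CT_nonneg T) h h1

open Classical in
/-- (1) For all `ε, lam > 0` there is `δ > 0` such that for all `q`, `C`, all large `N` and every set `A`
of integers of one residue class modulo `q` and up to `(log N) ^ C`, with at least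
`lam (φ(q) / q) log N` elements, the sum of the singular series of the four-element subsets of `A` is
at least `δ (q / φ(q)) ^ 3 |A| ^ 4`, and the subsets `T` for which at least `δ N` of the `n ≤ N` have
at least `δ 𝔖(T) n ^ 4 / (log n) ^ 4` prime quadruplets `m + t`, `t ∈ T`, between `n ^ 5` and
`(n + 1) ^ 5` carry at least the proportion `1 / 64 - ε` of this sum.
(2) There is `Λ > 0` such that for all `η, ε > 0` there is `δ > 0` such that for all large `N` and every
set `A` of at least `η log N` positive integers `≤ Λ log N`, the four-element subsets `T` of `A` for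
which at least `δ N` of the `n ≤ N` have at least `δ 𝔖(T) n ^ 4 / (log n) ^ 4` quadruplets `m + t`,
`t ∈ T`, of consecutive primes between `n ^ 5` and `(n + 1) ^ 5` carry at least the proportion
`1 / 1088430 - ε` of the sum of the singular series of all four-element subsets of `A`. -/
theorem result :
    (∀ T : Finset ℕ, HasProd (fun p : Nat.Primes => loc T p) (𝔖 T) ∧
      ((∀ p : ℕ, p.Prime → nu T p < p) → 0 < 𝔖 T)) ∧
    (∀ ε lam : ℝ, 0 < ε → 0 < lam → ∃ δ : ℝ, 0 < δ ∧ ∀ q : ℕ, 1 ≤ q → ∀ C : ℝ, ∃ N₀ : ℕ,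
      ∀ N : ℕ, N₀ ≤ N → ∀ (c : ℕ) (A : Finset ℕ), (∀ a ∈ A, a ≡ c [MOD q]) →
        (∀ a ∈ A, (a : ℝ) ≤ Real.log N ^ C) →
        lam * ((Nat.totient q : ℝ) / q) * Real.log N ≤ A.card →
        δ * ((q : ℝ) / Nat.totient q) ^ 3 * (A.card : ℝ) ^ 4 ≤ ∑ T ∈ A.powersetCard 4, 𝔖 T ∧
        (1 / 64 - ε) * ∑ T ∈ A.powersetCard 4, 𝔖 T ≤
          ∑ T ∈ (A.powersetCard 4).filter (fun T => Often δ (quadruplets T) T N), 𝔖 T) ∧
    (∃ Λ : ℝ, 0 < Λ ∧ ∀ η ε : ℝ, 0 < η → 0 < ε → ∃ δ : ℝ, 0 < δ ∧ ∃ N₀ : ℕ, ∀ N : ℕ, N₀ ≤ N →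
      ∀ A : Finset ℕ, (∀ a ∈ A, 1 ≤ a ∧ (a : ℝ) ≤ Λ * Real.log N) → η * Real.log N ≤ A.card →
      (1 / 1088430 - ε) * ∑ T ∈ A.powersetCard 4, 𝔖 T ≤
        ∑ T ∈ (A.powersetCard 4).filter (fun T => Often δ (consecutive T) T N), 𝔖 T) := by
  have tN : Tendsto (fun N : ℕ => (N : ℝ)) atTop atTop := tendsto_natCast_atTop_atTop
  obtain ⟨hS, hquarter⟩ := Pool.Agent.Results.MP_e87c7d_nt.QuarterAtEveryScale.result
  refine ⟨fun T => ⟨(hS T).1, fun h => (hS T).2 h⟩, ?_, ?_⟩
  · intro ε lam hε hlam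
    obtain ⟨κ, hκ, h1⟩ := hquarter 3 (by norm_num) ε hε (lam / 5) (by positivity)
    obtain ⟨δ, hδ, N₂, hN₂⟩ := prime_step hκ
    refine ⟨min δ κ, lt_min hδ hκ, fun q hq C => ?_⟩
    obtain ⟨N₁, hN₁⟩ := h1 q hq (max C 0)
    obtain ⟨N₃, hN₃⟩ := eventually_atTop.1
      (((Real.tendsto_log_atTop.comp tN).eventually_ge_atTop 1).and (log_small C))
    refine ⟨max N₁ (max N₂ N₃), fun N hN c A hAc hA hcard => ?_⟩
    have g1 : N₁ ≤ N := (le_max_left _ _).trans hN
    have g2 : N₂ ≤ N := (le_max_left _ _).trans ((le_max_right _ _).trans hN)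
    have g3 : N₃ ≤ N := (le_max_right _ _).trans ((le_max_right _ _).trans hN)
    obtain ⟨hlog, hsm⟩ := hN₃ N g3
    have hlog : 1 ≤ Real.log N := hlog
    have hN5 : N₁ ≤ N ^ 5 := g1.trans (Nat.le_self_pow (by norm_num) N)
    obtain ⟨k1, k2⟩ := hN₁ (N ^ 5) hN5 c A hAc (by
      intro a ha
      refine (hA a ha).trans ?_
      rw [log_pow5]
      calc Real.log N ^ C ≤ Real.log N ^ (max C 0) :=
            Real.rpow_le_rpow_of_exponent_le hlog (le_max_left _ _)
        _ ≤ (5 * Real.log N) ^ (max C 0) :=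
            Real.rpow_le_rpow (by linarith) (by linarith) (le_max_right _ _)) (by
      rw [log_pow5]
      refine le_trans (le_of_eq ?_) hcard
      ring)
    refine ⟨?_, ?_⟩
    · refine le_trans ?_ k1
      have : (0 : ℝ) ≤ ((q : ℝ) / Nat.totient q) ^ 3 * (A.card : ℝ) ^ 4 := by positivity
      calc min δ κ * ((q : ℝ) / Nat.totient q) ^ 3 * (A.card : ℝ) ^ 4
          = min δ κ * (((q : ℝ) / Nat.totient q) ^ 3 * (A.card : ℝ) ^ 4) := by ring
        _ ≤ κ * (((q : ℝ) / Nat.totient q) ^ 3 * (A.card : ℝ) ^ 4) :=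
            mul_le_mul_of_nonneg_right (min_le_right _ _) this
        _ = κ * ((q : ℝ) / Nat.totient q) ^ 3 * (A.card : ℝ) ^ (3 + 1) := by ring
    · have e64 : ((1 / 4 : ℝ) ^ 3 - ε) = 1 / 64 - ε := by norm_num
      rw [e64] at k2
      refine k2.trans ?_
      refine Finset.sum_le_sum_of_subset_of_nonneg (f := CT) ?_ fun T _ _ => CT_nonneg T
      intro T hT
      rw [mem_filter] at hT ⊢
      have hT4 := (Finset.mem_powersetCard.1 hT.1)
      refine ⟨hT.1, often_mono (min_le_left _ _) ?_⟩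
      exact hN₂ N g2 T hT4.2 (fun t ht => by
        have h3 := (hA t (hT4.1 ht)).trans hsm
        exact_mod_cast h3) (fun m => ∀ t ∈ T, (m + t).Prime)
        (fun m hm => hm) hT.2
  · obtain ⟨Λ, hΛ, h1⟩ := Pool.Agent.Results.MP_e87c7d_nt.ConsecutiveTuples.result.2 3 (by norm_num)
    refine ⟨5 * Λ, by positivity, fun η ε hη hε => ?_⟩
    obtain ⟨κ, hκ, x₀, h1⟩ := h1 (η / 5) ε (by positivity) hε
    obtain ⟨δ, hδ, N₂, hN₂⟩ := prime_step hκ
    obtain ⟨N₃, hN₃⟩ := eventually_atTop.1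
      (((Real.tendsto_log_atTop.comp tN).eventually_ge_atTop (5 * Λ)).and (log_small 2))
    refine ⟨δ, hδ, max x₀ (max N₂ N₃), fun N hN A hA hcard => ?_⟩
    have g1 : x₀ ≤ N := (le_max_left _ _).trans hN
    have g2 : N₂ ≤ N := (le_max_left _ _).trans ((le_max_right _ _).trans hN)
    have g3 : N₃ ≤ N := (le_max_right _ _).trans ((le_max_right _ _).trans hN)
    obtain ⟨hlog, hsm⟩ := hN₃ N g3
    have hlog : 5 * Λ ≤ Real.log N := hlog
    have hlog0 : 0 ≤ Real.log N := by linarith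
    have hN5 : x₀ ≤ N ^ 5 := g1.trans (Nat.le_self_pow (by norm_num) N)
    have k2 := h1 (N ^ 5) hN5 A (by
      intro a ha
      refine ⟨(hA a ha).1, (hA a ha).2.trans (le_of_eq ?_)⟩
      rw [log_pow5]
      ring) (by
      rw [log_pow5]
      refine le_trans (le_of_eq ?_) hcard
      ring)
    have ech : (1 / (((8 * 3 ^ 2 + 1 : ℕ).choose (3 + 1) : ℕ) : ℝ) - ε) = 1 / 1088430 - ε := by
      have : (8 * 3 ^ 2 + 1 : ℕ).choose (3 + 1) = 1088430 := by decide +kernel
      rw [this]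
      norm_num
    rw [ech] at k2
    refine k2.trans ?_
    refine Finset.sum_le_sum_of_subset_of_nonneg (f := CT) ?_ fun T _ _ => CT_nonneg T
    intro T hT
    rw [mem_filter] at hT ⊢
    have hT4 := (Finset.mem_powersetCard.1 hT.1)
    refine ⟨hT.1, ?_⟩
    refine hN₂ N g2 T hT4.2 (fun t ht => ?_) (fun m => Consecutive m T) (fun m hm => hm.1) ?_
    · have h3 := (hA t (hT4.1 ht)).2
      rw [show (2 : ℝ) = ((2 : ℕ) : ℝ) by norm_num, Real.rpow_natCast] at hsm
      have h4 : (t : ℝ) ≤ ((N ^ 3 : ℕ) : ℝ) := by nlinarith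
      exact_mod_cast h4
    · have h3 := hT.2
      have h4 : κ * CT T * (((N ^ 5 : ℕ) : ℝ) / Real.log ((N ^ 5 : ℕ) : ℝ) ^ 4) ≤
          (Pool.Agent.Results.MP_e87c7d_nt.ConsecutiveTuples.count (N ^ 5) T : ℝ) := h3
      refine h4.trans (le_of_eq ?_)
      unfold Pool.Agent.Results.MP_e87c7d_nt.ConsecutiveTuples.count
      rfl

end Pool.Agent.Results.MP_c03ca8_nt.RightOrderPatterns
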