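import Pool.Agent.J4.H57.QP.St
import Pool.Agent.J4.H57.QP.Sh
import Pool.Agent.Results.MP_e87c7d_nt.QuarterAtEveryScale
import Pool.Agent.Results.MP_e87c7d_nt.ConsecutiveTuples

/-!
# Prime triplets in short intervals, for a positive proportion of all patterns

The question is about the patterns `{0, 2, 6}` and `{0, 4, 6}`.  For a pattern `T` (a set of three
integers) and an interval `(x, x + y]` let `triplets T x y` be the number of the `m` in the interval such
that the three numbers `m + t`, `t ∈ T`, are primes.  We call `T` frequent at `N`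
(`InShortIntervals θ δ`) if for EVERY length `y` between `N ^ θ` and `N` at least `δ N` of the `x < N`
satisfy `triplets T x y ≥ δ 𝔖(T) y / (log N) ^ 3`, which is the order of magnitude predicted by Hardy
and Littlewood.

(1) For all `ε, lam, θ > 0` there is `δ > 0` such that in EVERY set `A` of at least `lam log N` integers
up to a power of `log N` (also in every residue class modulo `q`, with `lam (φ(q) / q) log N` elements)
at least the proportion `1 / 16 - ε` of the three-element subsets `T` of `A`, measured by the singular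
series `𝔖(T)`, is frequent at `N`, `N ≥ N₀`.
(2) There is `Λ > 0` such that in every set `A` of at least `η log N` positive integers up to
`Λ log N` at least the proportion `1 / 5456 - ε` of the three-element subsets `T` is frequent at `N` with
triplets of CONSECUTIVE primes.

In the starting files (`TriplesInLargeSets`) there is one pattern in every admissible set of 3560
integers which is realised by `x ^ (1 - ε)` triples of consecutive primes up to `x`, and
`MP_e87c7d_nt.QuarterAtEveryScale`, `MP_e87c7d_nt.ConsecutiveTuples` have the right order of magnitude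
for the intervals `[1, N]`.

Proof.  The counts up to `N` of the two latter starting files are combined with an upper bound sieve in
short intervals, uniform in `T` and in the position of the interval and correct up to a constant
(`Pool.Agent.J4.H57.QP`): few intervals cannot contain most of the triplets up to `N`.
-/

set_option autoImplicit false

open Finset Filter

namespace Pool.Agent.Results.MP_dddec0_nt.TripletsInShortIntervals

/-- the number of residue classes modulo `p` occupied by `T` -/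
def nu (T : Finset ℕ) (p : ℕ) : ℕ := (T.image (· % p)).card

/-- the factor at `p` of the singular series -/
noncomputable def loc (T : Finset ℕ) (p : ℕ) : ℝ :=
  (1 - (nu T p : ℝ) / p) / (1 - 1 / (p : ℝ)) ^ T.card

/-- the singular series of `T` -/
noncomputable def 𝔖 (T : Finset ℕ) : ℝ := ∏' p : Nat.Primes, loc T p

/-- the number of the `m` in `(x, x + y]` such that all `m + t`, `t ∈ T`, are primes -/
noncomputable def triplets (T : Finset ℕ) (x y : ℕ) : ℕ :=
  {m : ℕ | (x < m ∧ m ≤ x + y) ∧ ∀ t ∈ T, (m + t).Prime}.ncard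

/-- the numbers `m + t`, `t ∈ T`, are consecutive primes: they are prime, and every prime `m + j`
between two of them is one of them -/
def Consecutive (m : ℕ) (T : Finset ℕ) : Prop :=
  (∀ t ∈ T, (m + t).Prime) ∧
    ∀ j : ℕ, (∃ a ∈ T, a ≤ j) → (∃ b ∈ T, j ≤ b) → (m + j).Prime → j ∈ T

/-- the number of the `m` in `(x, x + y]` such that the `m + t`, `t ∈ T`, are consecutive primes -/
noncomputable def consecutive (T : Finset ℕ) (x y : ℕ) : ℕ :=
  {m : ℕ | (x < m ∧ m ≤ x + y) ∧ Consecutive m T}.ncard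

/-- for every length `y` between `N ^ θ` and `N` at least `δ N` of the `x < N` satisfy
`c x y ≥ δ 𝔖(T) y / (log N) ^ 3` -/
def InShortIntervals (θ δ : ℝ) (c : ℕ → ℕ → ℕ) (T : Finset ℕ) (N : ℕ) : Prop :=
  ∀ y : ℕ, (N : ℝ) ^ θ ≤ y → y ≤ N →
    δ * N ≤ ({x : ℕ | x < N ∧ δ * 𝔖 T * (y / Real.log N ^ 3) ≤ (c x y : ℝ)}.ncard : ℝ)

open Pool.Agent.H387R2.Uni Pool.Agent.J4.H57.QP

theorem CT_eq (T : Finset ℕ) : CT T = 𝔖 T := rfl

open Classical in
theorem cnt_eq (P : ℕ → Prop) (x y : ℕ) :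
    ((Icc (x + 1) (x + y)).filter P).card = {m : ℕ | (x < m ∧ m ≤ x + y) ∧ P m}.ncard := by
  rw [← Set.ncard_coe_finset]
  congr 1
  ext m
  simp only [Finset.coe_filter, mem_Icc, Set.mem_setOf_eq]
  constructor
  · rintro ⟨⟨a, b⟩, c⟩
    exact ⟨⟨by omega, b⟩, c⟩
  · rintro ⟨⟨a, b⟩, c⟩
    exact ⟨⟨by omega, b⟩, c⟩

open Classical in
theorem set_eq (N : ℕ) (R : ℕ → Prop) :
    {x : ℕ | x < N ∧ R x}.ncard = ((range N).filter R).card := by
  rw [← Set.ncard_coe_finset]
  congr 1
  ext x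
  simp

theorem short_mono {θ δ δ' : ℝ} (h : δ' ≤ δ) {c : ℕ → ℕ → ℕ} {T : Finset ℕ} {N : ℕ}
    (h1 : InShortIntervals θ δ c T N) : InShortIntervals θ δ' c T N := by
  classical
  intro y hy1 hy2
  have h2 := h1 y hy1 hy2
  refine le_trans (mul_le_mul_of_nonneg_right h (Nat.cast_nonneg _)) (h2.trans ?_)
  have hfin : {x : ℕ | x < N ∧ δ' * 𝔖 T * (y / Real.log N ^ 3) ≤ (c x y : ℝ)}.Finite :=
    (Set.finite_lt_nat N).subset fun x hx => hx.1
  refine Nat.cast_le.2 (Set.ncard_le_ncard ?_ hfin)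
  rintro x ⟨hx1, hx2⟩
  refine ⟨hx1, le_trans ?_ hx2⟩
  have h3 : (0 : ℝ) ≤ (y : ℝ) / Real.log N ^ 3 :=
    div_nonneg (by positivity) (pow_nonneg (Real.log_natCast_nonneg N) 3)
  exact mul_le_mul_of_nonneg_right (mul_le_mul_of_nonneg_right h (CT_nonneg T)) h3

/-- the common step -/
theorem prime_step {κ θ : ℝ} (hκ : 0 < κ) (hθ : 0 < θ) : ∃ δ : ℝ, 0 < δ ∧ ∃ N₀ : ℕ,
    ∀ N : ℕ, N₀ ≤ N → ∀ T : Finset ℕ, T.card = 3 →
    ∀ Q : ℕ → Prop, [DecidablePred Q] → (∀ m, Q m → ∀ t ∈ T, (m + t).Prime) →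
    κ * CT T * ((N : ℝ) / Real.log N ^ 3) ≤ (((Icc 1 N).filter Q).card : ℝ) →
    InShortIntervals θ δ (fun x y => {m : ℕ | (x < m ∧ m ≤ x + y) ∧ Q m}.ncard) T N := by
  classical
  obtain ⟨δ, hδ, N₀, hN₀⟩ := short 3 (by norm_num) hκ hθ
  refine ⟨min δ 1, lt_min hδ one_pos, N₀, fun N hN T hT Q _ hQ hlb => ?_⟩
  by_cases h0 : CT T = 0
  · intro y _ _
    have h1 : {x : ℕ | x < N ∧ min δ 1 * 𝔖 T * (y / Real.log N ^ 3) ≤
        ((fun x y => {m : ℕ | (x < m ∧ m ≤ x + y) ∧ Q m}.ncard) x y : ℝ)} = {x : ℕ | x < N} := by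
      ext x
      constructor
      · exact fun h => h.1
      · intro h
        refine ⟨h, ?_⟩
        rw [← CT_eq, h0, mul_zero, zero_mul]
        exact Nat.cast_nonneg _
    rw [h1]
    have h2 : {x : ℕ | x < N}.ncard = N := by
      have : {x : ℕ | x < N} = ((range N : Finset ℕ) : Set ℕ) := by ext x; simp
      rw [this, Set.ncard_coe_finset, card_range]
    rw [h2]
    calc min δ 1 * (N : ℝ) ≤ 1 * N :=
          mul_le_mul_of_nonneg_right (min_le_right _ _) (Nat.cast_nonneg _)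
      _ = N := one_mul _
  · refine short_mono (min_le_left _ _) ?_
    intro y hy1 hy2
    have h1 := hN₀ N hN T hT (adm_of_ne h0) Q hQ (by convert hlb) y hy1 hy2
    rw [set_eq]
    refine h1.trans (le_of_eq ?_)
    congr 2
    refine Finset.filter_congr fun x _ => ?_
    rw [cnt_eq, CT_eq]

open Classical in
/-- (1) For all `ε, lam, θ > 0` there is `δ > 0` such that for all `q`, `C`, all large `N` and every set
`A` of integers of one residue class modulo `q` and up to `(log N) ^ C`, with at least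
`lam (φ(q) / q) log N` elements, the sum of the singular series of the three-element subsets of `A` is
at least `δ (q / φ(q)) ^ 2 |A| ^ 3`, and the subsets `T` such that for every length `y` between `N ^ θ`
and `N` at least `δ N` of the intervals `(x, x + y]`, `x < N`, contain at least
`δ 𝔖(T) y / (log N) ^ 3` integers `m` for which the three `m + t`, `t ∈ T`, are primes carry at least
the proportion `1 / 16 - ε` of this sum.
(2) There is `Λ > 0` such that for all `η, ε, θ > 0` there is `δ > 0` such that for all large `N` and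
every set `A` of at least `η log N` positive integers `≤ Λ log N`, the three-element subsets `T` of `A`
such that for every length `y` between `N ^ θ` and `N` at least `δ N` of the intervals `(x, x + y]`,
`x < N`, contain at least `δ 𝔖(T) y / (log N) ^ 3` integers `m` for which the three `m + t`, `t ∈ T`,
are consecutive primes carry at least the proportion `1 / 5456 - ε` of the sum of the singular series of
all three-element subsets of `A`. -/
theorem result :
    (∀ T : Finset ℕ, HasProd (fun p : Nat.Primes => loc T p) (𝔖 T) ∧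
      ((∀ p : ℕ, p.Prime → nu T p < p) → 0 < 𝔖 T)) ∧
    (∀ ε lam θ : ℝ, 0 < ε → 0 < lam → 0 < θ → ∃ δ : ℝ, 0 < δ ∧ ∀ q : ℕ, 1 ≤ q → ∀ C : ℝ, ∃ N₀ : ℕ,
      ∀ N : ℕ, N₀ ≤ N → ∀ (c : ℕ) (A : Finset ℕ), (∀ a ∈ A, a ≡ c [MOD q]) →
        (∀ a ∈ A, (a : ℝ) ≤ Real.log N ^ C) →
        lam * ((Nat.totient q : ℝ) / q) * Real.log N ≤ A.card →
        δ * ((q : ℝ) / Nat.totient q) ^ 2 * (A.card : ℝ) ^ 3 ≤ ∑ T ∈ A.powersetCard 3, 𝔖 T ∧
        (1 / 16 - ε) * ∑ T ∈ A.powersetCard 3, 𝔖 T ≤
          ∑ T ∈ (A.powersetCard 3).filter (fun T => InShortIntervals θ δ (triplets T) T N), 𝔖 T) ∧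
    (∃ Λ : ℝ, 0 < Λ ∧ ∀ η ε θ : ℝ, 0 < η → 0 < ε → 0 < θ → ∃ δ : ℝ, 0 < δ ∧ ∃ N₀ : ℕ,
      ∀ N : ℕ, N₀ ≤ N → ∀ A : Finset ℕ, (∀ a ∈ A, 1 ≤ a ∧ (a : ℝ) ≤ Λ * Real.log N) →
      η * Real.log N ≤ A.card →
      (1 / 5456 - ε) * ∑ T ∈ A.powersetCard 3, 𝔖 T ≤
        ∑ T ∈ (A.powersetCard 3).filter (fun T => InShortIntervals θ δ (consecutive T) T N),
          𝔖 T) := by
  obtain ⟨hS, hquarter⟩ := Pool.Agent.Results.MP_e87c7d_nt.QuarterAtEveryScale.result
  refine ⟨fun T => ⟨(hS T).1, fun h => (hS T).2 h⟩, ?_, ?_⟩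
  · intro ε lam θ hε hlam hθ
    obtain ⟨κ, hκ, h1⟩ := hquarter 2 (by norm_num) ε hε lam hlam
    obtain ⟨δ, hδ, N₂, hN₂⟩ := prime_step hκ hθ
    refine ⟨min δ κ, lt_min hδ hκ, fun q hq C => ?_⟩
    obtain ⟨N₁, hN₁⟩ := h1 q hq C
    refine ⟨max N₁ N₂, fun N hN c A hAc hA hcard => ?_⟩
    have g1 : N₁ ≤ N := (le_max_left _ _).trans hN
    have g2 : N₂ ≤ N := (le_max_right _ _).trans hN
    obtain ⟨k1, k2⟩ := hN₁ N g1 c A hAc hA hcard
    refine ⟨?_, ?_⟩
    · refine le_trans ?_ k1
      have : (0 : ℝ) ≤ ((q : ℝ) / Nat.totient q) ^ 2 * (A.card : ℝ) ^ 3 := by positivity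
      calc min δ κ * ((q : ℝ) / Nat.totient q) ^ 2 * (A.card : ℝ) ^ 3
          = min δ κ * (((q : ℝ) / Nat.totient q) ^ 2 * (A.card : ℝ) ^ 3) := by ring
        _ ≤ κ * (((q : ℝ) / Nat.totient q) ^ 2 * (A.card : ℝ) ^ 3) :=
            mul_le_mul_of_nonneg_right (min_le_right _ _) this
        _ = κ * ((q : ℝ) / Nat.totient q) ^ 2 * (A.card : ℝ) ^ (2 + 1) := by ring
    · have e16 : ((1 / 4 : ℝ) ^ 2 - ε) = 1 / 16 - ε := by norm_num
      rw [e16] at k2
      refine k2.trans ?_
      refine Finset.sum_le_sum_of_subset_of_nonneg (f := CT) ?_ fun T _ _ => CT_nonneg T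
      intro T hT
      rw [mem_filter] at hT ⊢
      have hT3 := (Finset.mem_powersetCard.1 hT.1)
      refine ⟨hT.1, short_mono (min_le_left _ _) ?_⟩
      exact hN₂ N g2 T hT3.2 (fun m => ∀ t ∈ T, (m + t).Prime) (fun m hm => hm) hT.2
  · obtain ⟨Λ, hΛ, h1⟩ := Pool.Agent.Results.MP_e87c7d_nt.ConsecutiveTuples.result.2 2 (by norm_num)
    refine ⟨Λ, hΛ, fun η ε θ hη hε hθ => ?_⟩
    obtain ⟨κ, hκ, x₀, h1⟩ := h1 η ε hη hε
    obtain ⟨δ, hδ, N₂, hN₂⟩ := prime_step hκ hθ
    refine ⟨δ, hδ, max x₀ N₂, fun N hN A hA hcard => ?_⟩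
    have g1 : x₀ ≤ N := (le_max_left _ _).trans hN
    have g2 : N₂ ≤ N := (le_max_right _ _).trans hN
    have k2 := h1 N g1 A hA hcard
    have ech : (1 / (((8 * 2 ^ 2 + 1 : ℕ).choose (2 + 1) : ℕ) : ℝ) - ε) = 1 / 5456 - ε := by
      have : (8 * 2 ^ 2 + 1 : ℕ).choose (2 + 1) = 5456 := by decide +kernel
      rw [this]
      norm_num
    rw [ech] at k2
    refine k2.trans ?_
    refine Finset.sum_le_sum_of_subset_of_nonneg (f := CT) ?_ fun T _ _ => CT_nonneg T
    intro T hT
    rw [mem_filter] at hT ⊢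
    have hT3 := (Finset.mem_powersetCard.1 hT.1)
    refine ⟨hT.1, ?_⟩
    refine hN₂ N g2 T hT3.2 (fun m => Consecutive m T) (fun m hm => hm.1) ?_
    have h3 := hT.2
    have h4 : κ * CT T * ((N : ℝ) / Real.log N ^ 3) ≤
        (Pool.Agent.Results.MP_e87c7d_nt.ConsecutiveTuples.count N T : ℝ) := h3
    refine h4.trans (le_of_eq ?_)
    unfold Pool.Agent.Results.MP_e87c7d_nt.ConsecutiveTuples.count
    rfl

end Pool.Agent.Results.MP_dddec0_nt.TripletsInShortIntervals
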